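import Pool.Agent.Lib.MP_e6fef2_lc.Base

/-!
# Module CLUB: basic properties of the filter `club`
-/

universe u v

open Cardinal Filter

namespace Pool.Agent.Lib.MP_e6fef2_lc.H15

/-- Membership in the filter. -/
theorem ev_iff {p : Set El.{u} → Prop} : (∀ᶠ N in club, p N) ↔
    ∃ F : ℕ → List El.{u} → El.{u}, ∀ N : Set El.{u}, N.Countable → ClosedU F N → p N := Iff.rfl

/-- The closure of `Z` under the functions `F`. -/
def cl (F : ℕ → List El.{u} → El.{u}) (Z : Set El.{u}) : ℕ → Set El.{u}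
  | 0 => Z
  | n + 1 => cl F Z n ∪ {x | ∃ k, ∃ l : List El.{u}, (∀ y ∈ l, y ∈ cl F Z n) ∧ x = F k l}

theorem cl_countable (F : ℕ → List El.{u} → El.{u}) (Z : Set El.{u}) (hZ : Z.Countable) (n : ℕ) :
    (cl F Z n).Countable := by
  induction n with
  | zero => exact hZ
  | succ n ih =>
    refine ih.union ?_
    have h1 : {l : List El.{u} | ∀ y ∈ l, y ∈ cl F Z n}.Countable := by
      have : Countable (cl F Z n) := ih
      refine (Set.countable_range (List.map (Subtype.val : cl F Z n → El.{u}))).mono ?_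
      intro l hl
      exact ⟨l.attachWith _ hl, by simp⟩
    have h2 : (⋃ k : ℕ, (F k) '' {l : List El.{u} | ∀ y ∈ l, y ∈ cl F Z n}).Countable :=
      Set.countable_iUnion fun k => h1.image _
    refine h2.mono ?_
    rintro x ⟨k, l, hl, rfl⟩
    exact Set.mem_iUnion.2 ⟨k, l, hl, rfl⟩

theorem cl_mono (F : ℕ → List El.{u} → El.{u}) (Z : Set El.{u}) {m n : ℕ} (h : m ≤ n) :
    cl F Z m ⊆ cl F Z n := by
  induction h with
  | refl => exact subset_rfl
  | step _ ih => exact ih.trans Set.subset_union_left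

theorem exists_closed (F : ℕ → List El.{u} → El.{u}) (Z : Set El.{u}) (hZ : Z.Countable) :
    ∃ N : Set El.{u}, N.Countable ∧ Z ⊆ N ∧ ClosedU F N := by
  refine ⟨⋃ n, cl F Z n, Set.countable_iUnion fun n => cl_countable F Z hZ n,
    fun x hx => Set.mem_iUnion.2 ⟨0, hx⟩, fun k l hl => ?_⟩
  have h1 : ∃ n, ∀ x ∈ l, x ∈ cl F Z n := by
    clear hZ
    induction l with
    | nil => exact ⟨0, by simp⟩
    | cons a l ih =>
      obtain ⟨n, hn⟩ := ih fun x hx => hl x (List.mem_cons_of_mem _ hx)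
      obtain ⟨m, hm⟩ := Set.mem_iUnion.1 (hl a List.mem_cons_self)
      refine ⟨max m n, fun x hx => ?_⟩
      rcases List.mem_cons.1 hx with rfl | hx
      · exact cl_mono F Z (le_max_left _ _) hm
      · exact cl_mono F Z (le_max_right _ _) (hn x hx)
  obtain ⟨n, hn⟩ := h1
  exact Set.mem_iUnion.2 ⟨n + 1, Or.inr ⟨k, l, hn, rfl⟩⟩

theorem ev_exists (p : Set El.{u} → Prop) (hp : ∀ᶠ N in club, p N) (Z : Set El.{u})
    (hZ : Z.Countable) : ∃ N, N.Countable ∧ Z ⊆ N ∧ p N := by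
  obtain ⟨F, hF⟩ := ev_iff.1 hp
  obtain ⟨N, h1, h2, h3⟩ := exists_closed F Z hZ
  exact ⟨N, h1, h2, hF N h1 h3⟩

theorem ev_countable : ∀ᶠ N in club.{u}, N.Countable :=
  ev_iff.2 ⟨fun _ _ => ⟨PUnit, PUnit.unit⟩, fun _ h _ => h⟩

/-- Countable completeness. -/
theorem ev_all (p : ℕ → Set El.{u} → Prop) (h : ∀ n, ∀ᶠ N in club, p n N) :
    ∀ᶠ N in club, ∀ n, p n N := by
  choose F hF using fun n => ev_iff.1 (h n)
  refine ev_iff.2 ⟨fun m => F m.unpair.1 m.unpair.2, fun N hN hc n => hF n N hN ?_⟩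
  intro k l hl
  have := hc (Nat.pair n k) l hl
  simpa using this

theorem ev_const {T : Type u} (t : T) : ∀ᶠ N in club, In N t :=
  ev_iff.2 ⟨fun _ _ => ⟨T, t⟩, fun _ _ hc => hc 0 [] (by simp)⟩

/-- Normality for the class of all elements. -/
theorem ev_diag (p : El.{u} → Set El.{u} → Prop) (h : ∀ x, ∀ᶠ N in club, p x N) :
    ∀ᶠ N in club, ∀ x ∈ N, p x N := by
  choose F hF using fun x => ev_iff.1 (h x)
  refine ev_iff.2 ⟨fun n l => match l with
    | [] => ⟨PUnit, PUnit.unit⟩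
    | x :: l => F x n l, fun N hN hc x hx => hF x N hN ?_⟩
  intro k l hl
  refine hc k (x :: l) ?_
  intro y hy
  rcases List.mem_cons.1 hy with rfl | hy
  · exact hx
  · exact hl y hy

/-- Normality for a type. -/
theorem ev_normal {T : Type u} (p : T → Set El.{u} → Prop) (h : ∀ t, ∀ᶠ N in club, p t N) :
    ∀ᶠ N in club, ∀ t : T, In N t → p t N := by
  have h1 : ∀ᶠ N in club, ∀ x ∈ N, ∀ t : T, x = ⟨T, t⟩ → p t N := by
    refine ev_diag (fun x N => ∀ t : T, x = ⟨T, t⟩ → p t N) fun x => ?_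
    by_cases hx : ∃ t : T, x = ⟨T, t⟩
    · obtain ⟨t, rfl⟩ := hx
      filter_upwards [h t] with N hN s hs
      have : t = s := eq_of_heq (Sigma.mk.inj hs).2
      exact this ▸ hN
    · exact Eventually.of_forall fun N t ht => absurd ⟨t, ht⟩ hx
  filter_upwards [h1] with N hN t ht
  exact hN _ ht t rfl

/-- Normality for the class of types. -/
theorem ev_normal' (p : (T : Type u) → T → Set El.{u} → Prop)
    (h : ∀ T t, ∀ᶠ N in club, p T t N) : ∀ᶠ N in club, ∀ (T : Type u) (t : T), In N t → p T t N := by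
  filter_upwards [ev_diag (fun x N => p x.1 x.2 N) fun x => h x.1 x.2] with N hN T t ht
  exact hN ⟨T, t⟩ ht

theorem ev_fun {T T' : Type u} (f : T → T') : ∀ᶠ N in club, ∀ t : T, In N t → In N (f t) :=
  ev_normal (fun t N => In N (f t)) fun t => ev_const (f t)

theorem ev_fun2 {T T' T'' : Type u} (f : T → T' → T'') :
    ∀ᶠ N in club, ∀ (t : T) (t' : T'), In N t → In N t' → In N (f t t') := by
  filter_upwards [ev_normal (fun t N => ∀ t' : T', In N t' → In N (f t t')) fun t => ev_fun (f t)]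
    with N hN t t' ht ht'
  exact hN t ht t' ht'

theorem ev_set {T : Type u} (s : Set T) (hs : s.Countable) : ∀ᶠ N in club, ∀ t ∈ s, In N t := by
  rcases s.eq_empty_or_nonempty with rfl | hne
  · exact Eventually.of_forall fun N t ht => ht.elim
  · obtain ⟨g, rfl⟩ := hs.exists_eq_range hne
    filter_upwards [ev_all (fun n N => In N (g n)) fun n => ev_const (g n)] with N hN
    rintro t ⟨n, rfl⟩
    exact hN n

theorem ev_sets (T : Type u) :
    ∀ᶠ N in club, ∀ s : Set T, In N s → s.Countable → ∀ t ∈ s, In N t := by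
  refine ev_normal (fun (s : Set T) N => s.Countable → ∀ t ∈ s, In N t) fun s => ?_
  by_cases hs : s.Countable
  · filter_upwards [ev_set s hs] with N hN _
    exact hN
  · exact Eventually.of_forall fun N h => absurd h hs

theorem ev_list (T : Type u) :
    ∀ᶠ N in club, ∀ l : List T, In N l ↔ ∀ t ∈ l, In N t := by
  have h1 : ∀ᶠ N in club, ∀ l : List T, In N l → ∀ t ∈ l, In N t := by
    refine ev_normal (fun (l : List T) N => ∀ t ∈ l, In N t) fun l => ?_
    exact ev_set {t | t ∈ l} (List.finite_toSet l).countable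
  filter_upwards [h1, ev_const ([] : List T), ev_fun2 (fun (t : T) (l : List T) => t :: l)]
    with N h1 h2 h3 l
  refine ⟨h1 l, fun h => ?_⟩
  induction l with
  | nil => exact h2
  | cons a l ih =>
    exact h3 a l (h a List.mem_cons_self) (ih fun t ht => h t (List.mem_cons_of_mem _ ht))

theorem w_iio (δ : W.{u}) : (Set.Iio δ).Countable := by
  have h : #(Set.Iio δ) < ℵ_ 1 := by
    have : #(Set.Iio δ) < ℵ_ 1 := by simpa using mk_Iio_lt δ
    exact this
  rw [← Set.countable_coe_iff, ← Cardinal.mk_le_aleph0_iff]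
  rwa [← Order.lt_succ_iff, Cardinal.succ_aleph0]

theorem w_unc : ¬ (Set.univ : Set W.{u}).Countable := by
  intro h
  have h1 : #W.{u} ≤ ℵ₀ := by
    rw [Cardinal.mk_le_aleph0_iff]
    exact Set.countable_univ_iff.1 h
  have h2 : #W.{u} = ℵ_ 1 := by
    simp [W]
  rw [h2] at h1
  exact absurd (Cardinal.aleph0_lt_aleph_one) (not_lt.2 h1)

theorem ev_w : ∀ᶠ N in club, ∃ δ : W.{u}, ∀ ξ : W.{u}, In N ξ ↔ ξ < δ := by
  have h1 : ∀ᶠ N in club, ∀ ξ : W.{u}, In N ξ → ∀ η ∈ Set.Iio ξ, In N η :=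
    ev_normal (fun (ξ : W.{u}) N => ∀ η ∈ Set.Iio ξ, In N η) fun ξ => ev_set _ (w_iio ξ)
  filter_upwards [h1, ev_countable] with N h1 h2
  have hc : {ξ : W.{u} | In N ξ}.Countable := by
    refine Set.Countable.preimage_of_injOn (f := fun ξ : W.{u} => (⟨W.{u}, ξ⟩ : El.{u})) h2 ?_
    intro a _ b _ hab
    exact eq_of_heq (Sigma.mk.inj hab).2
  have hne : {ξ : W.{u} | ¬ In N ξ}.Nonempty := by
    by_contra hne
    rw [Set.not_nonempty_iff_eq_empty] at hne
    refine w_unc.{u} (hc.mono fun ξ _ => ?_)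
    by_contra h
    have : ξ ∈ {ξ : W.{u} | ¬ In N ξ} := h
    rw [hne] at this
    exact this
  refine ⟨WellFounded.min (wellFounded_lt) _ hne, fun ξ => ⟨fun h => ?_, fun h => ?_⟩⟩
  · by_contra hlt
    rw [not_lt] at hlt
    have h3 := WellFounded.min_mem (wellFounded_lt (α := W.{u})) _ hne
    rcases hlt.lt_or_eq with h4 | h4
    · exact h3 (h1 ξ h _ h4)
    · exact h3 (h4 ▸ h)
  · by_contra h'
    exact WellFounded.not_lt_min (wellFounded_lt (α := W.{u})) _ h' h

theorem club : ClubStatement.{u} :=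
  ⟨ev_exists, ev_countable, ev_all, fun _ t => ev_const t, fun _ p h => ev_normal p h,
    fun _ _ f => ev_fun f, fun _ _ _ f => ev_fun2 f, ev_sets, ev_list, ev_w, ev_normal'⟩

end Pool.Agent.Lib.MP_e6fef2_lc.H15
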