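import Pool.Agent.Lib.MP_e6fef2_lc.Chain
import Pool.Agent.Lib.MP_e6fef2_lc.H57.Alg
import Pool.Agent.Lib.MP_e6fef2_lc.H15.Club

/-!
# Module FUS: the fusion lemma
-/

universe u v

open Cardinal Filter

namespace Pool.Agent.Lib.MP_e6fef2_lc.H15

open Pool.Agent.Lib.MP_e6fef2_lc.H57

section core

variable {L : Type u} [LinearOrder L] {A : L → Type u} [∀ i, CompleteBooleanAlgebra (A i)]
  {f : ∀ i j, A i → A j} {C : Type u} [CompleteBooleanAlgebra C] {e : ∀ i, A i → C}
  {N : Set El.{u}} {G : ∀ i, Set (A i)}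

theorem FC.bot (h : FC A f N G) {i : L} {x : A i} (hx : x ∈ G i) : (⊥ : A i) ∈ G i := by
  have h1 := h.sup i (fun n => if n = 0 then x else xᶜ) fun n => by
    split_ifs
    · exact hx
    · exact h.compl _ _ hx
  have h2 : (⨆ n : ℕ, if n = 0 then x else xᶜ) = ⊤ := by
    rw [eq_top_iff, ← sup_compl_eq_top (x := x)]
    refine sup_le ?_ ?_
    · exact le_iSup_of_le 0 (by simp)
    · exact le_iSup_of_le 1 (by simp)
  rw [h2] at h1
  have h3 := h.compl _ _ h1
  rwa [compl_top] at h3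

theorem FC.inf (h : FC A f N G) {i : L} {x y : A i} (hx : x ∈ G i) (hy : y ∈ G i) :
    x ⊓ y ∈ G i := by
  have h1 := h.sup i (fun n => if n = 0 then xᶜ else yᶜ) fun n => by
    split_ifs
    · exact h.compl _ _ hx
    · exact h.compl _ _ hy
  have h2 : (⨆ n : ℕ, if n = 0 then xᶜ else yᶜ)ᶜ = x ⊓ y := by
    rw [compl_iSup]
    refine le_antisymm (le_inf ?_ ?_) (le_iInf fun n => ?_)
    · exact iInf_le_of_le 0 (by simp)
    · exact iInf_le_of_le 1 (by simp)
    · split_ifs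
      · simp
      · simp
  have h3 := h.compl _ _ h1
  rwa [h2] at h3

theorem FC.disjointed (h : FC A f N G) {i : L} {x : ℕ → A i} (hx : ∀ n, x n ∈ G i) (n : ℕ) :
    disjointed x n ∈ G i := by
  refine disjointedRec (f := x) (p := fun t => t ∈ G i) (fun t k ht => ?_) (hx n)
  rw [sdiff_eq]
  exact FC.inf h ht (h.compl _ _ (hx k))

variable (A f e N) in
/-- The pieces which decide the next condition. -/
noncomputable def hpc (j : ℕ → L) (z : ℕ → C) (R : ℕ → ℕ → ℕ → Prop) (n k k' : ℕ) : A (j n) :=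
  open Classical in
  gen (A (j n)) N ⊓ if R n k k' then prj (e (j n)) (z k') else ⊥

variable (A f e N) in
/-- The Boolean values of (the `n`-th condition is `z k`). -/
noncomputable def Pc (j : ℕ → L) (z : ℕ → C) (R : ℕ → ℕ → ℕ → Prop) (k0 : ℕ) (a : A (j 0)) :
    ∀ n, ℕ → A (j n)
  | 0 => fun k => if k = k0 then a else ⊥
  | n + 1 => fun k' => (⨆ k, f (j n) (j (n + 1))
      (Pc j z R k0 a n k ⊓ disjointed (hpc A e N j z R n k) k')) ⊓
        (gen (A (j (n + 1))) N ⊓ prj (e (j (n + 1))) (z k'))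

variable {j : ℕ → L} {z : ℕ → C} {R : ℕ → ℕ → ℕ → Prop} {k0 : ℕ} {a : A (j 0)}

theorem Pc_le (ha : a ≤ gen (A (j 0)) N ⊓ prj (e (j 0)) (z k0)) (n k : ℕ) :
    Pc A f e N j z R k0 a n k ≤ gen (A (j n)) N ⊓ prj (e (j n)) (z k) := by
  cases n with
  | zero =>
    unfold Pc
    split_ifs with h
    · subst h; exact ha
    · exact bot_le
  | succ n => exact inf_le_right

theorem Pc_mem (hF : FC A f N G) (hj : Monotone j) (hjN : ∀ n, In N (j n))
    (hz : ∀ n k, In N (prj (e (j n)) (z k))) (ha : a ∈ G (j 0)) (n k : ℕ) :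
    Pc A f e N j z R k0 a n k ∈ G (j n) := by
  induction n generalizing k with
  | zero =>
    unfold Pc
    split_ifs with h
    · exact ha
    · exact FC.bot hF ha
  | succ n ih =>
    unfold Pc
    refine FC.inf hF (hF.sup _ _ fun k' => hF.map _ _ (hj (Nat.le_succ n)) _
      (FC.inf hF (ih k') (FC.disjointed hF (fun k'' => ?_) k))) (hF.gen _ _ (hjN _) (hz _ _))
    unfold hpc
    split_ifs with h
    · exact hF.gen _ _ (hjN _) (hz _ _)
    · rw [inf_bot_eq]
      exact FC.bot hF (ih k')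

theorem Pc_disj (hch : IsCh A f) (hj : Monotone j) (n k k' : ℕ) (hk : k ≠ k') :
    Pc A f e N j z R k0 a n k ⊓ Pc A f e N j z R k0 a n k' = ⊥ := by
  induction n generalizing k k' with
  | zero =>
    unfold Pc
    split_ifs with h1 h2
    · exact absurd (h1.trans h2.symm) hk
    · simp
    · simp
    · simp
  | succ n ih =>
    have hce := hch.ce _ _ (hj (Nat.le_succ n))
    rw [eq_bot_iff]
    unfold Pc
    refine (inf_le_inf inf_le_left inf_le_left).trans ?_
    rw [iSup_inf_iSup]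
    refine iSup_le fun p => ?_
    rw [← ce_inf hce]
    have : Pc A f e N j z R k0 a n p.1 ⊓ disjointed (hpc A e N j z R n p.1) k ⊓
        (Pc A f e N j z R k0 a n p.2 ⊓ disjointed (hpc A e N j z R n p.2) k') = ⊥ := by
      rw [inf_inf_inf_comm]
      by_cases h : p.1 = p.2
      · rw [← h]
        have := disjoint_disjointed (hpc A e N j z R n p.1) hk
        rw [(disjoint_iff.1 this : _ = ⊥), inf_bot_eq]
      · rw [ih _ _ h, bot_inf_eq]
    rw [this, ce_bot hce]

theorem hpc_bot {n k k' : ℕ} (h : ¬ R n k k') : hpc A e N j z R n k k' = ⊥ := by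
  unfold hpc
  rw [if_neg h, inf_bot_eq]

theorem disjointed_bot_of {n k k' : ℕ} (h : ¬ R n k k') :
    disjointed (hpc A e N j z R n k) k' = ⊥ := by
  rw [eq_bot_iff]
  exact (disjointed_le _ k').trans (hpc_bot h).le

/-- The thread. -/
theorem Pc_thread (hch : IsCh A f) (htop : IsTop A f e) (hj : Monotone j)
    (hPE : ∀ n k, gen (A (j n)) N ⊓ prj (f (j n) (j (n + 1))) (prj (e (j (n + 1))) (z k)) ≤
      prj (f (j n) (j (n + 1))) (gen (A (j (n + 1))) N ⊓ prj (e (j (n + 1))) (z k)))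
    (hg : ∀ n k, gen (A (j n)) N ⊓ prj (e (j n)) (z k) ≤ ⨆ k', hpc A e N j z R n k k')
    (ha : a ≤ gen (A (j 0)) N ⊓ prj (e (j 0)) (z k0)) :
    IsTh f j (fun n => ⨆ k, Pc A f e N j z R k0 a n k) := by
  intro n
  have hce := hch.ce _ _ (hj (Nat.le_succ n))
  rw [prj_iSup hce]
  have h1 : ∀ k', prj (f (j n) (j (n + 1))) (Pc A f e N j z R k0 a (n + 1) k') =
      ⨆ k, Pc A f e N j z R k0 a n k ⊓ disjointed (hpc A e N j z R n k) k' := by
    intro k'
    conv_lhs => unfold Pc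
    rw [← ce_iSup hce, prj_inf' hce]
    refine inf_eq_left.2 ?_
    refine le_trans ?_ (hPE n k')
    refine iSup_le fun k => le_inf ?_ ?_
    · exact inf_le_left.trans ((Pc_le ha n k).trans inf_le_left)
    · refine inf_le_right.trans ((disjointed_le _ _).trans ?_)
      unfold hpc
      refine inf_le_right.trans ?_
      split_ifs
      · have h2 : e (j n) = fun x => e (j (n + 1)) (f (j n) (j (n + 1)) x) := by
          funext x
          exact (htop.comp _ _ (hj (Nat.le_succ n)) x).symm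
        rw [h2, prj_comp hce (htop.ce _)]
      · exact bot_le
  simp only [h1]
  rw [iSup_comm]
  congr 1
  funext k
  rw [← inf_iSup_eq, iSup_disjointed]
  exact inf_eq_left.2 ((Pc_le ha n k).trans (hg n k))

/-- Later conditions are below earlier ones. -/
theorem Pc_below (hch : IsCh A f) (hj : Monotone j)
    (hR : ∀ n k k', R n k k' → z k' ≤ z k) (n k m k' : ℕ) (hnm : n ≤ m) (h : ¬ z k' ≤ z k) :
    Pc A f e N j z R k0 a m k' ⊓ f (j n) (j m) (Pc A f e N j z R k0 a n k) = ⊥ := by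
  induction hnm generalizing k' with
  | refl =>
    rw [hch.id]
    refine Pc_disj hch hj _ _ _ ?_
    rintro rfl
    exact h le_rfl
  | @step m hnm ih =>
    have hce := hch.ce _ _ (hj (Nat.le_succ m))
    rw [eq_bot_iff]
    conv_lhs => arg 1; unfold Pc
    rw [← hch.comp _ _ _ (hj hnm) (hj (Nat.le_succ m))]
    refine (inf_le_inf_right _ inf_le_left).trans ?_
    rw [iSup_inf_eq]
    refine iSup_le fun k'' => ?_
    rw [← ce_inf hce]
    have : Pc A f e N j z R k0 a m k'' ⊓ disjointed (hpc A e N j z R m k'') k' ⊓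
        f (j n) (j m) (Pc A f e N j z R k0 a n k) = ⊥ := by
      by_cases h1 : z k'' ≤ z k
      · have h2 : ¬ R m k'' k' := fun h2 => h ((hR _ _ _ h2).trans h1)
        rw [disjointed_bot_of h2, inf_bot_eq, bot_inf_eq]
      · rw [inf_right_comm, ih k'' h1, bot_inf_eq]
    rw [this, ce_bot hce]

/-- The infimum of the thread is below the chosen conditions. -/
theorem Pc_inf_le (hch : IsCh A f) (htop : IsTop A f e) (hj : Monotone j)
    (hR : ∀ n k k', R n k k' → z k' ≤ z k)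
    (ha : a ≤ gen (A (j 0)) N ⊓ prj (e (j 0)) (z k0)) (n k : ℕ)
    (hE : ⨅ m, e (j m) (prj (e (j m)) (z k)) ≤ z k) :
    (⨅ m, e (j m) (⨆ k, Pc A f e N j z R k0 a m k)) ⊓ e (j n) (Pc A f e N j z R k0 a n k) ≤
      z k := by
  refine le_trans (le_iInf fun m => ?_) hE
  have key : ∀ m, n ≤ m → (⨅ m, e (j m) (⨆ k, Pc A f e N j z R k0 a m k)) ⊓
      e (j n) (Pc A f e N j z R k0 a n k) ≤ e (j m) (prj (e (j m)) (z k)) := by
    intro m hnm
    refine (inf_le_inf_right _ (iInf_le _ m)).trans ?_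
    rw [← htop.comp _ _ (hj hnm), ← ce_inf (htop.ce _)]
    refine ce_mono (htop.ce _) ?_
    rw [iSup_inf_eq]
    refine iSup_le fun k' => ?_
    by_cases h : z k' ≤ z k
    · refine inf_le_left.trans (((Pc_le ha m k').trans inf_le_right).trans ?_)
      exact prj_mono (htop.ce _) h
    · rw [Pc_below hch hj hR n k m k' hnm h]
      exact bot_le
  rcases le_total n m with hnm | hnm
  · exact key m hnm
  · refine (key n le_rfl).trans ?_
    rw [← htop.comp _ _ (hj hnm)]
    have h1 : prj (e (j m)) (z k) = prj (f (j m) (j n)) (prj (e (j n)) (z k)) := by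
      have h2 : e (j m) = fun x => e (j n) (f (j m) (j n) x) := by
        funext x
        exact (htop.comp _ _ (hj hnm) x).symm
      rw [h2, prj_comp (hch.ce _ _ (hj hnm)) (htop.ce _)]
    rw [h1]
    exact ce_mono (htop.ce _) (le_prj (hch.ce _ _ (hj hnm)) _)

/-- The pieces of stage `n + 1` are below the infimum. -/
theorem Pc_succ_le (hch : IsCh A f) (htop : IsTop A f e) (hj : Monotone j)
    (hR : ∀ n k k', R n k k' → z k' ≤ z k)
    (ha : a ≤ gen (A (j 0)) N ⊓ prj (e (j 0)) (z k0)) (n : ℕ)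
    (hE : ∀ k k', R n k k' → ⨅ m, e (j m) (prj (e (j m)) (z k')) ≤ z k') (t : C)
    (ht : ∀ k k', Pc A f e N j z R k0 a n k ≠ ⊥ → R n k k' → z k' ≤ t) :
    (⨅ m, e (j m) (⨆ k, Pc A f e N j z R k0 a m k)) ≤ t := by
  have h1 : (⨅ m, e (j m) (⨆ k, Pc A f e N j z R k0 a m k)) ≤
      (⨅ m, e (j m) (⨆ k, Pc A f e N j z R k0 a m k)) ⊓
        e (j (n + 1)) (⨆ k, Pc A f e N j z R k0 a (n + 1) k) := le_inf le_rfl (iInf_le _ _)
  refine h1.trans ?_
  rw [ce_iSup (htop.ce _), inf_iSup_eq]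
  refine iSup_le fun k' => ?_
  by_cases h : ∃ k, Pc A f e N j z R k0 a n k ≠ ⊥ ∧ R n k k'
  · obtain ⟨k, hk, hR'⟩ := h
    exact (Pc_inf_le hch htop hj hR ha (n + 1) k' (hE k k' hR')).trans (ht k k' hk hR')
  · have h2 : Pc A f e N j z R k0 a (n + 1) k' = ⊥ := by
      unfold Pc
      rw [eq_bot_iff]
      refine inf_le_left.trans (iSup_le fun k => ?_)
      have h3 : Pc A f e N j z R k0 a n k ⊓ disjointed (hpc A e N j z R n k) k' = ⊥ := by
        by_cases h4 : Pc A f e N j z R k0 a n k = ⊥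
        · rw [h4, bot_inf_eq]
        · rw [disjointed_bot_of fun h5 => h ⟨k, h4, h5⟩, inf_bot_eq]
      rw [h3, ce_bot (hch.ce _ _ (hj (Nat.le_succ n)))]
    rw [h2, ce_bot (htop.ce _), inf_bot_eq]
    exact bot_le

end core

section club

variable {L : Type u} [LinearOrder L] {A : L → Type u} [∀ i, CompleteBooleanAlgebra (A i)]
  {f : ∀ i j, A i → A j} {C : Type u} [CompleteBooleanAlgebra C]

open Classical in
/-- A countable support, if there is one. -/
noncomputable def supp (e : ∀ i, A i → C) (d : C) : Set L :=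
  if h : ∃ s : Set L, s.Countable ∧ s.Nonempty ∧ d = ⨅ i ∈ s, e i (prj (e i) d) then h.choose else ∅

/-- The elements with countable support below an element of `D`. -/
def Es (e : ∀ i, A i → C) (D : Set C) : Set C :=
  {d | (∃ x ∈ D, d ≤ x) ∧ (supp e d).Countable ∧ (supp e d).Nonempty ∧
    d = ⨅ i ∈ supp e d, e i (prj (e i) d)}

theorem mem_Es {e : ∀ i, A i → C} {D : Set C} {d x : C} (hx : x ∈ D) (hd : d ≤ x)
    (h : ∃ s : Set L, s.Countable ∧ s.Nonempty ∧ d = ⨅ i ∈ s, e i (prj (e i) d)) :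
    d ∈ Es e D := by
  refine ⟨⟨x, hx, hd⟩, ?_⟩
  unfold supp
  rw [dif_pos h]
  exact h.choose_spec

theorem le_sSup_Es {e : ∀ i, A i → C} (hDP : DP A e) {D : Set C} (hD : sSup D = ⊤) (d : C) :
    d ≤ ⨆ t : C, ⨆ _ : t ∈ Es e D ∧ t ≤ d, t := by
  by_contra hcon
  set s : C := ⨆ t : C, ⨆ _ : t ∈ Es e D ∧ t ≤ d, t with hs
  have h1 : d ⊓ sᶜ ≠ ⊥ := fun h => hcon (by
    rwa [← disjoint_iff, ← le_compl_iff_disjoint_right, compl_compl] at h)
  have h2 : ∃ x ∈ D, d ⊓ sᶜ ⊓ x ≠ ⊥ := by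
    by_contra h3
    push Not at h3
    apply h1
    rw [← inf_top_eq (d ⊓ sᶜ), ← hD, sSup_eq_iSup, inf_iSup_eq, eq_bot_iff]
    refine iSup_le fun x => ?_
    rw [inf_iSup_eq]
    exact iSup_le fun hx => (h3 x hx).le
  obtain ⟨x, hx, hne⟩ := h2
  obtain ⟨t, ht, htne, hts⟩ := hDP _ hne
  have h4 : t ≤ s := by
    rw [hs]
    refine le_iSup_of_le t (le_iSup_of_le ⟨mem_Es hx (ht.trans inf_le_right) hts, ?_⟩ le_rfl)
    exact ht.trans (inf_le_left.trans inf_le_left)
  have h5 : t ≤ sᶜ := ht.trans (inf_le_left.trans inf_le_right)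
  apply htne
  rw [eq_bot_iff, ← inf_compl_eq_bot (a := s)]
  exact le_inf h4 h5

open Classical in
/-- An element of `D` above `d`. -/
noncomputable def pick (D : Set C) (d : C) : C := if h : ∃ x ∈ D, d ≤ x then h.choose else ⊥

theorem pick_spec {D : Set C} {d : C} (h : ∃ x ∈ D, d ≤ x) : pick D d ∈ D ∧ d ≤ pick D d := by
  unfold pick
  rw [dif_pos h]
  exact h.choose_spec

end club

theorem fus (hG : GenStatement.{u}) : FusStatement.{u} := by
  classical
  intro L _ A _ f C _ e hch htop hTP hDP hPE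
  have e1 : ∀ᶠ N in MP_e6fef2_lc.club, ∀ i : L, In N i → ∀ j : L, In N j → i ≤ j → ∀ c : A j, In N c →
      gen (A i) N ⊓ prj (f i j) c ≤ prj (f i j) (gen (A j) N ⊓ c) := by
    refine ev_normal _ fun i => ev_normal _ fun j => ?_
    by_cases hij : i ≤ j
    · filter_upwards [hPE i j hij] with N hN _
      exact hN
    · exact Eventually.of_forall fun N h => absurd h hij
  have e2 : ∀ᶠ N in MP_e6fef2_lc.club, ∀ i : L, In N i → ∀ φ : C → A i, In N φ →
      gen (A i) N ⊓ ⨆ t, φ t ≤ ⨆ (t : C) (_ : In N t), φ t :=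
    ev_normal _ fun i => (hG (A i)).1 C
  have e3 : ∀ᶠ N in MP_e6fef2_lc.club, ∀ i : L, In N i → ∀ (D : Set C) (d : C), In N D → In N d →
      In N (fun d' => if d' ∈ Es e D ∧ d' ≤ d then prj (e i) d' else ⊥ : C → A i) :=
    ev_normal _ fun i => ev_fun2 (fun (D : Set C) (d : C) =>
      (fun d' => if d' ∈ Es e D ∧ d' ≤ d then prj (e i) d' else ⊥ : C → A i))
  have e4 : ∀ᶠ N in MP_e6fef2_lc.club, ∀ i : L, In N i → ∀ d : C, In N d → In N (prj (e i) d) :=
    ev_normal _ fun i => ev_fun (fun d => prj (e i) d)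
  have e5 : ∀ᶠ N in MP_e6fef2_lc.club, ∀ d : C, In N d → In N (supp e d) := ev_fun (fun d => supp e d)
  have e6 : ∀ᶠ N in MP_e6fef2_lc.club, ∀ s : Set L, In N s → s.Countable → ∀ i ∈ s, In N i := ev_sets L
  have e7 : ∀ᶠ N in MP_e6fef2_lc.club, ∀ (D : Set C) (d : C), In N D → In N d → In N (pick D d) :=
    ev_fun2 (fun D d => pick D d)
  have e8 : ∀ᶠ N in MP_e6fef2_lc.club, In N ({⊤} : Set C) := ev_const _
  filter_upwards [ev_countable, e1, e2, e3, e4, e5, e6, e7, e8]
    with N h0 h1 h2 h3 h4 h5 h6 h7 h8 G hF i hi c hc a haG ha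
  have inj : ∀ T : Type u, {t : T | In N t}.Countable := by
    intro T
    refine Set.Countable.preimage_of_injOn (f := fun t : T => (⟨T, t⟩ : El.{u})) h0 ?_
    intro x _ y _ hxy
    exact eq_of_heq (Sigma.mk.inj hxy).2
  obtain ⟨l, hl⟩ := (inj L).exists_eq_range ⟨i, hi⟩
  obtain ⟨z, hz⟩ := (inj C).exists_eq_range ⟨c, hc⟩
  have hDc : {D : Set C | In N D ∧ sSup D = ⊤}.Countable := (inj (Set C)).mono fun D hD => hD.1
  obtain ⟨D, hD⟩ := hDc.exists_eq_range ⟨{⊤}, h8, by simp⟩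
  have hlN : ∀ n, In N (l n) := fun n => by
    have : l n ∈ {t : L | In N t} := hl ▸ ⟨n, rfl⟩
    exact this
  have hzN : ∀ n, In N (z n) := fun n => by
    have : z n ∈ {t : C | In N t} := hz ▸ ⟨n, rfl⟩
    exact this
  have hDN : ∀ n, In N (D n) ∧ sSup (D n) = ⊤ := fun n => by
    have : D n ∈ {D : Set C | In N D ∧ sSup D = ⊤} := hD ▸ ⟨n, rfl⟩
    exact this
  obtain ⟨k0, hk0⟩ : ∃ k0, z k0 = c := by
    have : c ∈ Set.range z := hz ▸ hc
    exact this
  -- the sequence `j`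
  let j : ℕ → L := fun n => Nat.rec i (fun n x => max x (l n)) n
  have hj0 : j 0 = i := rfl
  have hjs : ∀ n, j (n + 1) = max (j n) (l n) := fun n => rfl
  have hj : Monotone j := monotone_nat_of_le_succ fun n => by rw [hjs]; exact le_max_left _ _
  have hjN : ∀ n, In N (j n) := by
    intro n
    induction n with
    | zero => exact hi
    | succ n ih =>
      rw [hjs]
      rcases max_choice (j n) (l n) with h | h
      · rw [h]; exact ih
      · rw [h]; exact hlN n
  have hjc : ∀ x : L, In N x → ∃ n, x ≤ j n := by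
    intro x hx
    obtain ⟨n, rfl⟩ : x ∈ Set.range l := hl ▸ hx
    exact ⟨n + 1, by rw [hjs]; exact le_max_right _ _⟩
  let R : ℕ → ℕ → ℕ → Prop := fun n k k' => z k' ∈ Es e (D n) ∧ z k' ≤ z k
  have hR : ∀ n k k', R n k k' → z k' ≤ z k := fun n k k' h => h.2
  subst hk0
  have hprj : ∀ n k, In N (prj (e (j n)) (z k)) := fun n k => h4 _ (hjN n) _ (hzN k)
  have hg : ∀ n k, gen (A (j n)) N ⊓ prj (e (j n)) (z k) ≤ ⨆ k', hpc A e N j z R n k k' := by
    intro n k
    have g1 := h2 (j n) (hjN n) _ (h3 (j n) (hjN n) (D n) (z k) (hDN n).1 (hzN k))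
    have g2 : prj (e (j n)) (z k) ≤
        ⨆ t : C, if t ∈ Es e (D n) ∧ t ≤ z k then prj (e (j n)) t else ⊥ := by
      refine (prj_mono (htop.ce _) (le_sSup_Es hDP (hDN n).2 (z k))).trans ?_
      rw [prj_iSup (htop.ce _)]
      refine iSup_mono fun t => ?_
      rw [prj_iSup (htop.ce _)]
      refine iSup_le fun ht => ?_
      rw [if_pos ht]
    have g3 : gen (A (j n)) N ⊓ prj (e (j n)) (z k) ≤ gen (A (j n)) N ⊓
        ⨆ (t : C) (_ : In N t), if t ∈ Es e (D n) ∧ t ≤ z k then prj (e (j n)) t else ⊥ :=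
      le_inf inf_le_left ((inf_le_inf_left _ g2).trans g1)
    refine g3.trans ?_
    rw [inf_iSup_eq]
    refine iSup_le fun t => ?_
    rw [inf_iSup_eq]
    refine iSup_le fun ht => ?_
    obtain ⟨k', rfl⟩ : t ∈ Set.range z := hz ▸ ht
    refine le_trans (le_of_eq ?_) (le_iSup (fun k' => hpc A e N j z R n k k') k')
    unfold hpc
    by_cases h : z k' ∈ Es e (D n) ∧ z k' ≤ z k
    · rw [if_pos h, if_pos (show R n k k' from h)]
    · rw [if_neg h, if_neg (show ¬ R n k k' from h)]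
  have hPE' : ∀ n k, gen (A (j n)) N ⊓ prj (f (j n) (j (n + 1))) (prj (e (j (n + 1))) (z k)) ≤
      prj (f (j n) (j (n + 1))) (gen (A (j (n + 1))) N ⊓ prj (e (j (n + 1))) (z k)) :=
    fun n k => h1 _ (hjN n) _ (hjN (n + 1)) (hj (Nat.le_succ n)) _ (hprj (n + 1) k)
  have hE : ∀ n k k', R n k k' → ⨅ m, e (j m) (prj (e (j m)) (z k')) ≤ z k' := by
    intro n k k' h
    obtain ⟨⟨-, hsc, hsn, hse⟩, -⟩ := h
    conv_rhs => rw [hse]
    refine le_iInf₂ fun x hx => ?_
    have hxN : In N x := h6 _ (h5 _ (hzN k')) hsc x hx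
    obtain ⟨m, hm⟩ := hjc x hxN
    refine iInf_le_of_le m ?_
    have g1 : prj (e x) (z k') = prj (f x (j m)) (prj (e (j m)) (z k')) := by
      have g2 : e x = fun y => e (j m) (f x (j m) y) := by
        funext y
        exact (htop.comp _ _ hm y).symm
      rw [g2, prj_comp (hch.ce _ _ hm) (htop.ce _)]
    rw [← htop.comp _ _ hm, g1]
    exact ce_mono (htop.ce _) (le_prj (hch.ce _ _ hm) _)
  have hth := Pc_thread (R := R) (k0 := k0) hch htop hj hPE' hg ha
  have hq0 : (⨆ k, Pc A f e N j z R k0 a 0 k) = a := by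
    refine le_antisymm (iSup_le fun k => ?_) (le_iSup_of_le k0 ?_)
    · unfold Pc
      split_ifs
      · exact le_rfl
      · exact bot_le
    · unfold Pc
      simp
  refine ⟨j, fun n => ⨆ k, Pc A f e N j z R k0 a n k, hj, fun n => ?_, hth, ?_, le_inf ?_ ?_⟩
  · exact hF.sup _ _ fun k => Pc_mem hF hj hjN hprj haG n k
  · have := hTP j hj _ hth
    rw [hq0] at this
    exact this
  · unfold gen
    refine le_iInf fun X => le_iInf fun hX => le_iInf fun hXt => ?_
    obtain ⟨n, rfl⟩ : X ∈ Set.range D := hD ▸ ⟨hX, hXt⟩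
    refine Pc_succ_le hch htop hj hR ha n (hE n) _ fun k k' _ hR' => ?_
    obtain ⟨p1, p2⟩ := pick_spec hR'.1.1
    exact p2.trans (le_iSup_of_le (pick (D n) (z k')) (le_iSup_of_le p1
      (le_iSup_of_le (h7 _ _ hX (hzN k')) le_rfl)))
  · refine Pc_succ_le hch htop hj hR ha 0 (hE 0) _ fun k k' hk hR' => ?_
    have hkk : k = k0 := by
      by_contra hne
      apply hk
      unfold Pc
      simp [hne]
    subst hkk
    exact hR'.2

end Pool.Agent.Lib.MP_e6fef2_lc.H15
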